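import Mathlib

set_option autoImplicit false
open Set Filter Topology

namespace Pool.Agent.Y664.SK

/-- the optimization over the size of the bubble -/
theorem opt {d : ℕ} (hd : 2 ≤ d) {c3 C6 m : ℝ} (hc3 : 0 < c3) (hC6 : 0 < C6) (hm : 0 < m) :
    ∃ c : ℝ, 0 < c ∧ ∀ s s1 : ℝ, m ≤ s →
      (∀ τ : ℝ, 0 < τ → (s + c3 * τ ^ (d - 1)) * (1 + C6 * τ ^ (d + 1))⁻¹ ≤ s1) →
      s ^ (((d : ℝ) + 1) / 2) + c ≤ s1 ^ (((d : ℝ) + 1) / 2) := by
  obtain ⟨θ, hθ⟩ : ∃ θ, θ = min (c3 / (4 * C6)) (min m (m / (4 * C6))) := ⟨_, rfl⟩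
  have hθ0 : 0 < θ := by
    rw [hθ]
    exact lt_min (by positivity) (lt_min hm (by positivity))
  have hθ1 : θ ≤ c3 / (4 * C6) := by rw [hθ]; exact min_le_left _ _
  have hθ2 : θ ≤ m := by rw [hθ]; exact (min_le_right _ _).trans (min_le_left _ _)
  have hθ3 : θ ≤ m / (4 * C6) := by rw [hθ]; exact (min_le_right _ _).trans (min_le_right _ _)
  have hdR : (2 : ℝ) ≤ d := by exact_mod_cast hd
  refine ⟨c3 / 2 * θ ^ (((d : ℝ) - 1) / 2), by positivity, fun s s1 hs H => ?_⟩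
  have hs0 : 0 < s := hm.trans_le hs
  obtain ⟨τ, hτ⟩ : ∃ τ, τ = Real.sqrt (θ / s) := ⟨_, rfl⟩
  have hq : 0 < θ / s := by positivity
  have hτ0 : 0 < τ := by rw [hτ]; exact Real.sqrt_pos.2 hq
  have hτ2 : τ ^ 2 = θ / s := by rw [hτ]; exact Real.sq_sqrt hq.le
  have hτ1 : τ ≤ 1 := by
    rw [hτ, Real.sqrt_le_one, div_le_one hs0]
    exact hθ2.trans hs
  have hH := H τ hτ0
  have hpow : τ ^ (d + 1) = τ ^ (d - 1) * τ ^ 2 := by
    rw [← pow_add]; congr 1; omega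
  have hP : 0 < τ ^ (d - 1) := by positivity
  -- the two small terms
  have t1 : s * (C6 * τ ^ (d + 1)) ≤ c3 / 4 * τ ^ (d - 1) := by
    rw [hpow, hτ2]
    have e : s * (C6 * (τ ^ (d - 1) * (θ / s))) = C6 * θ * τ ^ (d - 1) := by
      field_simp
    rw [e]
    apply mul_le_mul_of_nonneg_right _ hP.le
    rw [le_div_iff₀ (by positivity)] at hθ1
    linarith
  have t2 : C6 * τ ^ (d + 1) ≤ 1 / 4 := by
    have h1 : τ ^ (d + 1) ≤ τ ^ 2 := pow_le_pow_of_le_one hτ0.le hτ1 (by omega)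
    have h2 : τ ^ 2 ≤ 1 / (4 * C6) := by
      rw [hτ2, div_le_div_iff₀ hs0 (by positivity)]
      rw [le_div_iff₀ (by positivity)] at hθ3
      linarith
    calc C6 * τ ^ (d + 1) ≤ C6 * (1 / (4 * C6)) := by gcongr; exact h1.trans h2
      _ = 1 / 4 := by field_simp
  have hx0 : 0 ≤ C6 * τ ^ (d + 1) := by positivity
  have t3 : 1 - C6 * τ ^ (d + 1) ≤ (1 + C6 * τ ^ (d + 1))⁻¹ := by
    rw [← one_div, le_div_iff₀ (by linarith)]
    nlinarith
  have hmain : s + c3 / 2 * τ ^ (d - 1) ≤ s1 := by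
    refine le_trans ?_ hH
    have h1 : (s + c3 * τ ^ (d - 1)) * (1 - C6 * τ ^ (d + 1)) ≤
        (s + c3 * τ ^ (d - 1)) * (1 + C6 * τ ^ (d + 1))⁻¹ :=
      mul_le_mul_of_nonneg_left t3 (by positivity)
    refine le_trans ?_ h1
    have h2 : c3 * τ ^ (d - 1) * (C6 * τ ^ (d + 1)) ≤ c3 * τ ^ (d - 1) * (1 / 4) :=
      mul_le_mul_of_nonneg_left t2 (by positivity)
    nlinarith
  have hτr : τ ^ (d - 1) = (θ / s) ^ (((d : ℝ) - 1) / 2) := by
    rw [hτ, Real.sqrt_eq_rpow, ← Real.rpow_natCast, ← Real.rpow_mul hq.le, Nat.cast_sub (by omega)]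
    congr 1
    push_cast
    ring
  obtain ⟨h, hh⟩ : ∃ h, h = c3 / 2 * τ ^ (d - 1) := ⟨_, rfl⟩
  rw [← hh] at hmain
  have hh0 : 0 < h := by rw [hh]; positivity
  have hb := one_add_mul_self_le_rpow_one_add (s := h / s) (by
    have : 0 < h / s := by positivity
    linarith) (p := ((d : ℝ) + 1) / 2) (by linarith)
  have h4 : (s + h) ^ (((d : ℝ) + 1) / 2) ≤ s1 ^ (((d : ℝ) + 1) / 2) :=
    Real.rpow_le_rpow (by positivity) hmain (by positivity)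
  refine le_trans ?_ h4
  have h5 : s + h = s * (1 + h / s) := by field_simp
  rw [h5, Real.mul_rpow hs0.le (by positivity)]
  have hse : 0 < s ^ (((d : ℝ) + 1) / 2) := by positivity
  have h6 : s ^ (((d : ℝ) + 1) / 2) * (1 + ((d : ℝ) + 1) / 2 * (h / s)) ≤
      s ^ (((d : ℝ) + 1) / 2) * (1 + h / s) ^ (((d : ℝ) + 1) / 2) :=
    mul_le_mul_of_nonneg_left hb hse.le
  refine le_trans ?_ h6
  have h7 : s ^ (((d : ℝ) + 1) / 2) * (h / s) = c3 / 2 * θ ^ (((d : ℝ) - 1) / 2) := by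
    have e1 : s ^ (((d : ℝ) + 1) / 2) = s ^ (((d : ℝ) - 1) / 2) * s := by
      rw [← Real.rpow_add_one hs0.ne']
      congr 1
      ring
    rw [e1, hh, hτr, Real.div_rpow hθ0.le hs0.le]
    have : 0 < s ^ (((d : ℝ) - 1) / 2) := by positivity
    field_simp
  rw [mul_add, mul_one]
  have h8 : s ^ (((d : ℝ) + 1) / 2) * (h / s) ≤
      s ^ (((d : ℝ) + 1) / 2) * (((d : ℝ) + 1) / 2 * (h / s)) := by
    apply mul_le_mul_of_nonneg_left _ hse.le
    have h9 : 0 < h / s := by positivity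
    nlinarith
  linarith

/-- sequences: from the step inequality to the uniform gap -/
theorem seq_gap {e : ℝ} (he : 0 < e) (s : ℕ → ℝ) (h0 : ∀ k, 0 ≤ s k) (hmono : ∀ k, s k ≤ s (k + 1)) (h1 : 0 < s 1)
    (H : ∀ m : ℝ, 0 < m → ∃ c : ℝ, 0 < c ∧ ∀ k, m ≤ s k → s k ^ e + c ≤ s (k + 1) ^ e) :
    ∃ c : ℝ, 0 < c ∧ ∀ k, s k ^ e + c ≤ s (k + 1) ^ e := by
  have mono := monotone_nat_of_le_succ hmono
  rcases (h0 0).eq_or_lt with h | h
  · obtain ⟨c, hc, hk⟩ := H (s 1) h1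
    have hp : 0 < s 1 ^ e := by positivity
    refine ⟨min c (s 1 ^ e), lt_min hc hp, fun k => ?_⟩
    rcases Nat.eq_zero_or_pos k with rfl | hk0
    · rw [← h, Real.zero_rpow he.ne', zero_add, zero_add]
      exact min_le_right _ _
    · have := hk k (mono hk0)
      have := min_le_left c (s 1 ^ e)
      linarith
  · obtain ⟨c, hc, hk⟩ := H (s 0) h
    exact ⟨c, hc, fun k => hk k (mono (Nat.zero_le k))⟩

end Pool.Agent.Y664.SK
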