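import Mathlib
import Pool.Agent.W545.Man.Strict
import Pool.Agent.W545.Man.StrictSurf
import Pool.Agent.Y664.SK.Opt

/-!
Uniform gaps of the conformal Steklov eigenvalues.
-/

set_option autoImplicit false
open Set Filter Topology MeasureTheory Metric
open scoped ENNReal Manifold ContDiff

namespace Pool.Agent.Y664.SK

open Pool.Agent.W545.Man

section high

variable {d : ℕ} {Ω : Type*} [TopologicalSpace Ω] [ChartedSpace (EuclideanHalfSpace (d + 1)) Ω]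
  [IsManifold (𝓡∂ (d + 1)) ∞ Ω] [MeasurableSpace Ω] [BorelSpace Ω] [T2Space Ω]

/-- one more bubble: the step from `k` to `k + 1`, with constants which do not depend on `k` -/
theorem step_high [CompactSpace Ω] (hd : 2 ≤ d) (g : RMetric d Ω) {q : Ω} (hq : q ∈ bd d Ω) :
    ∃ c3 C6 : ℝ, 0 < c3 ∧ 0 < C6 ∧ ∀ (k : ℕ) (s' τ : ℝ), 0 < s' → 0 < τ →
      ENNReal.ofReal s' < confSup k g →
      (s' + c3 * τ ^ (d - 1)) * (1 + C6 * τ ^ (d + 1))⁻¹ ≤ (confSup (k + 1) g).toReal := by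
  have hdR : (2 : ℝ) ≤ d := by exact_mod_cast hd
  have hne : Nonempty Ω := ⟨q⟩
  obtain ⟨c3, C6, hc3, hC6, H⟩ := super hd g hq
  refine ⟨c3, C6, hc3, hC6, fun k s' τ hs'0 hτ0 h1 => ?_⟩
  have hS : confSup (k + 1) g ≠ ⊤ := Pool.Agent.W749.ST.confSup_ne_top hd g (k + 1)
  set p : ℝ := (1 - (d : ℝ)) / (d + 1) with hp
  have hp0 : p ≤ 0 := by
    rw [hp]; apply div_nonpos_of_nonpos_of_nonneg <;> linarith
  have hp1 : -1 ≤ p := by
    rw [hp, le_div_iff₀ (by linarith)]; linarith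
  set s := (confSup (k + 1) g).toReal with hs
  have hs0 : 0 ≤ s := ENNReal.toReal_nonneg
  have hsS : ENNReal.ofReal s = confSup (k + 1) g := ENNReal.ofReal_toReal hS
  set D := 1 + C6 * τ ^ (d + 1) with hD
  have hD1 : 1 ≤ D := by
    have : 0 ≤ C6 * τ ^ (d + 1) := by positivity
    linarith
  unfold confSup at h1
  simp only [lt_iSup_iff] at h1
  obtain ⟨f0, μ0, ν0, hμ0, hν0, hlt⟩ := h1
  obtain ⟨μ1, hμ1, rfl⟩ := exists_bg hμ0
  obtain ⟨ν1, hν1, rfl⟩ := exists_bg' hν0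
  have hV := vol_univ hμ0
  have hN := bvol_univ hq hμ0 hν0
  rw [univ_wd] at hV hN
  unfold nsigma at hlt
  rw [univ_wd, univ_wd] at hlt
  set V := ∫⁻ x, ENNReal.ofReal (f0.1 x ^ (d + 1)) ∂μ1 with hVdef
  set N := ∫⁻ x, ENNReal.ofReal (f0.1 x ^ d) ∂ν1 with hNdef
  have hVr : 0 < V.toReal := ENNReal.toReal_pos hV.1 hV.2
  have hNr : 0 < N.toReal := ENNReal.toReal_pos hN.1 hN.2
  set W := V.toReal ^ (((d + 1 : ℕ) : ℝ)⁻¹) with hWdef
  have hW0 : 0 < W := by positivity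
  have hWV : W ^ (d + 1) = V.toReal := Real.rpow_inv_natCast_pow hVr.le (by omega)
  have hVW : V = ENNReal.ofReal (W ^ (d + 1)) := by
    rw [hWV, ENNReal.ofReal_toReal hV.2]
  have hNN : N = ENNReal.ofReal N.toReal := (ENNReal.ofReal_toReal hN.2).symm
  have hWp : (W ^ (d + 1)) ^ p = (W ^ (d - 1))⁻¹ := by
    rw [← Real.rpow_natCast W (d + 1), ← Real.rpow_mul hW0.le, ← Real.rpow_natCast W (d - 1),
      ← Real.rpow_neg hW0.le]
    congr 1
    rw [hp, Nat.cast_sub (by omega)]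
    push_cast
    field_simp
    ring
  have hcV : V ^ p * N = ENNReal.ofReal ((W ^ (d - 1))⁻¹ * N.toReal) := by
    rw [ENNReal.ofReal_mul (by positivity), ← hNN, hVW, ENNReal.ofReal_rpow_of_pos (by positivity),
      hWp]
  rw [mul_assoc, hcV] at hlt
  have hcpos : 0 < (W ^ (d - 1))⁻¹ * N.toReal := by positivity
  have hlt2 : ENNReal.ofReal s' / ENNReal.ofReal ((W ^ (d - 1))⁻¹ * N.toReal) <
      sigma k (conf g f0) (μ1.withDensity fun x => ENNReal.ofReal (f0.1 x ^ (d + 1)))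
        (ν1.withDensity fun x => ENNReal.ofReal (f0.1 x ^ d)) := by
    rw [ENNReal.div_lt_iff (Or.inl (by rw [Ne, ENNReal.ofReal_eq_zero, not_le]; exact hcpos))
      (Or.inl ENNReal.ofReal_ne_top)]
    exact hlt
  obtain ⟨a, ha1, ha2⟩ := ENNReal.lt_iff_exists_nnreal_btwn.1 hlt2
  have ha0 : (0 : ℝ) < a := by
    have : (0 : ℝ≥0∞) < a := zero_le.trans_lt ha1
    exact_mod_cast this
  have haE : (a : ℝ≥0∞) = ENNReal.ofReal (a : ℝ) := by rw [ENNReal.ofReal_coe_nnreal]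
  rw [haE] at ha1 ha2
  rw [← ENNReal.ofReal_div_of_pos hcpos, ENNReal.ofReal_lt_ofReal_iff ha0, div_lt_iff₀ hcpos] at ha1
  obtain ⟨f', lam, hlam, b1, b2, b3⟩ := H μ1 ν1 hμ1 hν1 f0 k a τ W N.toReal ha0 hτ0 hW0 hNr.le ha2
    hVW hNN
  have hfin := le_confSup (k + 1) f' _ _ (isVolume_conf hμ1 f') (isBdryVolume_conf hν1 f')
  unfold nsigma at hfin
  rw [univ_wd, univ_wd] at hfin
  have h3 : ENNReal.ofReal (a / lam) * ENNReal.ofReal ((W ^ (d + 1) * D) ^ p) *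
      ENNReal.ofReal (lam * (N.toReal + c3 * (τ * W) ^ (d - 1) / a)) ≤ ENNReal.ofReal s := by
    rw [hsS]
    refine le_trans ?_ hfin
    gcongr
    rw [← ENNReal.ofReal_rpow_of_pos (by positivity)]
    exact rpow_anti hp0 b3
  rw [← ENNReal.ofReal_mul (by positivity), ← ENNReal.ofReal_mul (by positivity),
    ENNReal.ofReal_le_ofReal_iff hs0, Real.mul_rpow (by positivity) (by positivity), hWp] at h3
  have hDp : D⁻¹ ≤ D ^ p := by
    rw [← Real.rpow_neg_one]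
    exact Real.rpow_le_rpow_of_exponent_le hD1 hp1
  refine le_trans ?_ h3
  have e : (a / lam : ℝ) * ((W ^ (d - 1))⁻¹ * D ^ p) *
      (lam * (N.toReal + c3 * (τ * W) ^ (d - 1) / a)) =
      (a * ((W ^ (d - 1))⁻¹ * N.toReal) + c3 * τ ^ (d - 1)) * D ^ p := by
    rw [mul_pow]
    field_simp
  rw [e]
  have : 0 ≤ c3 * τ ^ (d - 1) := by positivity
  apply mul_le_mul _ hDp (by positivity) (by positivity)
  linarith

theorem step_high' [CompactSpace Ω] (hd : 2 ≤ d) (g : RMetric d Ω) {q : Ω} (hq : q ∈ bd d Ω) :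
    ∃ c3 C6 : ℝ, 0 < c3 ∧ 0 < C6 ∧ ∀ (k : ℕ) (τ : ℝ), 0 < (confSup k g).toReal → 0 < τ →
      ((confSup k g).toReal + c3 * τ ^ (d - 1)) * (1 + C6 * τ ^ (d + 1))⁻¹ ≤
        (confSup (k + 1) g).toReal := by
  obtain ⟨c3, C6, hc3, hC6, H⟩ := step_high hd g hq
  refine ⟨c3, C6, hc3, hC6, fun k τ hs hτ => ?_⟩
  have hS : confSup k g ≠ ⊤ := Pool.Agent.W749.ST.confSup_ne_top hd g k
  have hD : 0 < 1 + C6 * τ ^ (d + 1) := by positivity
  rw [mul_inv_le_iff₀ hD]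
  by_contra hcon
  rw [not_le] at hcon
  obtain ⟨s', h1, h2⟩ : ∃ s', max 0 ((confSup (k + 1) g).toReal * (1 + C6 * τ ^ (d + 1)) - c3 * τ ^ (d - 1)) < s' ∧
      s' < (confSup k g).toReal := by
    apply exists_between
    apply max_lt hs
    linarith
  have h3 : 0 < s' := (le_max_left _ _).trans_lt h1
  have h4 := (le_max_right _ _).trans_lt h1
  have h5 := H k s' τ h3 hτ (by
    rw [← ENNReal.ofReal_toReal hS]
    exact (ENNReal.ofReal_lt_ofReal_iff hs).2 h2)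
  rw [mul_inv_le_iff₀ hD] at h5
  linarith

/-- the uniform gap in dimension at least three -/
theorem gap_high [CompactSpace Ω] [ConnectedSpace Ω] (hd : 2 ≤ d) (g : RMetric d Ω) {q : Ω}
    (hq : q ∈ bd d Ω) : ∃ c : ℝ, 0 < c ∧ ∀ k,
      (confSup k g).toReal ^ (((d : ℝ) + 1) / 2) + c ≤ (confSup (k + 1) g).toReal ^ (((d : ℝ) + 1) / 2) := by
  obtain ⟨c3, C6, hc3, hC6, H⟩ := step_high' hd g hq
  obtain ⟨μ, hμ⟩ := Pool.Agent.W749.ST.exists_isVolume g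
  obtain ⟨ν, hν⟩ := Pool.Agent.W749.ST.exists_isBdryVolume g
  have hfin : ∀ k, confSup k g ≠ ⊤ := fun k => Pool.Agent.W749.ST.confSup_ne_top hd g k
  apply seq_gap (by positivity) (fun k => (confSup k g).toReal) (fun k => ENNReal.toReal_nonneg)
  · intro k
    exact ENNReal.toReal_mono (hfin _) (strict_mono hd g ⟨q, hq⟩ hμ hν k).le
  · exact ENNReal.toReal_pos (confSup_succ_ne_zero g hq 0) (hfin 1)
  · intro m hm
    obtain ⟨c, hc, hk⟩ := opt hd hc3 hC6 hm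
    exact ⟨c, hc, fun k hmk => hk _ _ hmk fun τ hτ => H k τ (hm.trans_le hmk) hτ⟩

end high

section surf

variable {Ω : Type*} [TopologicalSpace Ω] [ChartedSpace (EuclideanHalfSpace (1 + 1)) Ω]
  [IsManifold (𝓡∂ (1 + 1)) ∞ Ω] [MeasurableSpace Ω] [BorelSpace Ω] [T2Space Ω]

theorem step_surf [CompactSpace Ω] (g : RMetric 1 Ω) {q : Ω}
    (hq : q ∈ bd 1 Ω) {R0 C : ℝ} (hR0 : 0 < R0) (hC : 0 < C) (H : SurfData g q R0 C) :
    ∃ c3 : ℝ, 0 < c3 ∧ ∀ (k : ℕ) (s' δ : ℝ), 0 < s' → 0 < δ → ENNReal.ofReal s' < confSup k g →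
      (s' + c3) / (1 + δ) ≤ (confSup (k + 1) g).toReal := by
  have hne : Nonempty Ω := ⟨q⟩
  obtain ⟨c3, hc3, Hs⟩ := surf_super hq hR0 hC H
  refine ⟨c3, hc3, fun k s' δ hs'0 hδ0 h1 => ?_⟩
  have hS : confSup (k + 1) g ≠ ⊤ := Pool.Agent.W749.ST.confSup_ne_top' le_rfl g (k + 1)
  set s := (confSup (k + 1) g).toReal with hs
  have hs0 : 0 ≤ s := ENNReal.toReal_nonneg
  have hsS : ENNReal.ofReal s = confSup (k + 1) g := ENNReal.ofReal_toReal hS
  unfold confSup at h1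
  simp only [lt_iSup_iff] at h1
  obtain ⟨f0, μ0, ν0, hμ0, hν0, hlt⟩ := h1
  obtain ⟨μ1, hμ1, rfl⟩ := exists_bg hμ0
  obtain ⟨ν1, hν1, rfl⟩ := exists_bg' hν0
  have hN := bvol_univ hq hμ0 hν0
  rw [univ_wd] at hN
  have hexp : ∀ (f : PosFun 1 Ω) (j : ℕ), nsigma j (conf g f)
      (μ1.withDensity fun x => ENNReal.ofReal (f.1 x ^ (1 + 1)))
      (ν1.withDensity fun x => ENNReal.ofReal (f.1 x ^ 1)) = sigma j (conf g f)
      (μ1.withDensity fun x => ENNReal.ofReal (f.1 x ^ (1 + 1)))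
      (ν1.withDensity fun x => ENNReal.ofReal (f.1 x ^ 1)) *
      ∫⁻ x, ENNReal.ofReal (f.1 x ^ 1) ∂ν1 := by
    intro f j
    unfold nsigma
    rw [univ_wd f 1 ν1]
    have e : (1 - ((1 : ℕ) : ℝ)) / (((1 : ℕ) : ℝ) + 1) = 0 := by norm_num
    rw [e, ENNReal.rpow_zero, mul_one]
  rw [hexp] at hlt
  set N := ∫⁻ x, ENNReal.ofReal (f0.1 x ^ 1) ∂ν1 with hNdef
  have hNr : 0 < N.toReal := ENNReal.toReal_pos hN.1 hN.2
  have hNN : N = ENNReal.ofReal N.toReal := (ENNReal.ofReal_toReal hN.2).symm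
  have hlt2 : ENNReal.ofReal s' / ENNReal.ofReal N.toReal <
      sigma k (conf g f0) (μ1.withDensity fun x => ENNReal.ofReal (f0.1 x ^ (1 + 1)))
        (ν1.withDensity fun x => ENNReal.ofReal (f0.1 x ^ 1)) := by
    rw [ENNReal.div_lt_iff (Or.inl (by rw [Ne, ENNReal.ofReal_eq_zero, not_le]; exact hNr))
      (Or.inl ENNReal.ofReal_ne_top), ← hNN]
    exact hlt
  obtain ⟨a, ha1, ha2⟩ := ENNReal.lt_iff_exists_nnreal_btwn.1 hlt2
  have ha0 : (0 : ℝ) < a := by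
    have : (0 : ℝ≥0∞) < a := zero_le.trans_lt ha1
    exact_mod_cast this
  have haE : (a : ℝ≥0∞) = ENNReal.ofReal (a : ℝ) := by rw [ENNReal.ofReal_coe_nnreal]
  rw [haE] at ha1 ha2
  rw [← ENNReal.ofReal_div_of_pos hNr, ENNReal.ofReal_lt_ofReal_iff ha0, div_lt_iff₀ hNr] at ha1
  obtain ⟨f', b1, b2⟩ := Hs μ1 ν1 hμ1 hν1 f0 k a δ N.toReal ha0 hδ0 hNr.le ha2 hNN
  have hfin := le_confSup (k + 1) f' _ _ (isVolume_conf hμ1 f') (isBdryVolume_conf hν1 f')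
  rw [hexp] at hfin
  have h3 : ENNReal.ofReal (a / (1 + δ)) * ENNReal.ofReal (N.toReal + c3 / a) ≤
      ENNReal.ofReal s := by
    rw [hsS]
    refine le_trans ?_ hfin
    gcongr
  rw [← ENNReal.ofReal_mul (by positivity), ENNReal.ofReal_le_ofReal_iff hs0] at h3
  have h4 : (a : ℝ) / (1 + δ) * (N.toReal + c3 / a) = (a * N.toReal + c3) / (1 + δ) := by
    field_simp
  rw [h4] at h3
  refine le_trans ?_ h3
  gcongr

theorem step_surf' [CompactSpace Ω] (g : RMetric 1 Ω) {q : Ω}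
    (hq : q ∈ bd 1 Ω) {R0 C : ℝ} (hR0 : 0 < R0) (hC : 0 < C) (H : SurfData g q R0 C) :
    ∃ c3 : ℝ, 0 < c3 ∧ ∀ k : ℕ, 0 < (confSup k g).toReal →
      (confSup k g).toReal + c3 ≤ (confSup (k + 1) g).toReal := by
  obtain ⟨c3, hc3, Hs⟩ := step_surf g hq hR0 hC H
  refine ⟨c3, hc3, fun k hs => ?_⟩
  have hS : confSup k g ≠ ⊤ := Pool.Agent.W749.ST.confSup_ne_top' le_rfl g k
  by_contra hcon
  rw [not_le] at hcon
  set s := (confSup k g).toReal with hsd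
  set t := (confSup (k + 1) g).toReal with htd
  have ht0 : 0 ≤ t := ENNReal.toReal_nonneg
  obtain ⟨s', h1, h2⟩ : ∃ s', max 0 (t - c3) < s' ∧ s' < s := by
    apply exists_between
    apply max_lt hs
    linarith
  have h3 : 0 < s' := (le_max_left _ _).trans_lt h1
  have h4 := (le_max_right _ _).trans_lt h1
  have h6 : 0 < s' + c3 - t := by linarith
  have h5 := Hs k s' ((s' + c3 - t) / (2 * (t + 1))) h3 (by positivity) (by
    rw [← ENNReal.ofReal_toReal hS]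
    exact (ENNReal.ofReal_lt_ofReal_iff hs).2 h2)
  rw [div_le_iff₀ (by positivity)] at h5
  have h7 : t * (1 + (s' + c3 - t) / (2 * (t + 1))) ≤ t + (s' + c3 - t) / 2 := by
    have e : t * (1 + (s' + c3 - t) / (2 * (t + 1))) = t + (s' + c3 - t) / 2 * (t / (t + 1)) := by
      field_simp
    rw [e]
    have h8 : t / (t + 1) ≤ 1 := by
      rw [div_le_one (by positivity)]; linarith
    have : (s' + c3 - t) / 2 * (t / (t + 1)) ≤ (s' + c3 - t) / 2 * 1 := by gcongr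
    linarith
  linarith

/-- the uniform gap on surfaces -/
theorem gap_surf [CompactSpace Ω] [ConnectedSpace Ω] (g : RMetric 1 Ω) {q : Ω}
    (hq : q ∈ bd 1 Ω) {R0 C : ℝ} (hR0 : 0 < R0) (hC : 0 < C) (H : SurfData g q R0 C) :
    ∃ c : ℝ, 0 < c ∧ ∀ k,
      (confSup k g).toReal ^ ((((1 : ℕ) : ℝ) + 1) / 2) + c ≤
        (confSup (k + 1) g).toReal ^ ((((1 : ℕ) : ℝ) + 1) / 2) := by
  obtain ⟨c3, hc3, Hs⟩ := step_surf' g hq hR0 hC H
  have hfin : ∀ k, confSup k g ≠ ⊤ := fun k => Pool.Agent.W749.ST.confSup_ne_top' le_rfl g k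
  apply seq_gap (by positivity) (fun k => (confSup k g).toReal) (fun k => ENNReal.toReal_nonneg)
  · intro k
    exact ENNReal.toReal_mono (hfin _) (strict_surf g hq hR0 hC H k).le
  · exact ENNReal.toReal_pos (confSup_succ_ne_zero g hq 0) (hfin 1)
  · intro m hm
    refine ⟨c3, hc3, fun k hmk => ?_⟩
    have e : (((1 : ℕ) : ℝ) + 1) / 2 = 1 := by norm_num
    rw [e, Real.rpow_one, Real.rpow_one]
    exact Hs k (hm.trans_le hmk)

end surf

end Pool.Agent.Y664.SK
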